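import Mathlib

set_option autoImplicit false

/-!
# Abstract polyhedra, equivelarity and dualities: definitions
-/

namespace Pool.Agent.Y361.Equi

/-- Two flags (maximal chains) differ in exactly one face. -/
def Adj {P : Type} [PartialOrder P] (A B : Flag P) : Prop :=
  ((A : Set P) \ B).ncard = 1 ∧ ((B : Set P) \ A).ncard = 1

/-- The partially ordered set `P` with rank function `rk` is an abstract polyhedron. -/
structure IsPolyhedron {P : Type} [PartialOrder P] (rk : P → ℤ) : Prop where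
  strictMono : StrictMono rk
  range : Set.range rk = {-1, 0, 1, 2, 3}
  least : ∃ F, rk F = -1 ∧ ∀ G, F ≤ G
  greatest : ∃ F, rk F = 3 ∧ ∀ G, G ≤ F
  flag_card : ∀ Φ : Flag P, (Φ : Set P).ncard = 5
  diamond : ∀ (j : ℤ) (F G : P), F ≤ G → rk F = j - 1 → rk G = j + 1 →
    {H | rk H = j ∧ F ≤ H ∧ H ≤ G}.ncard = 2
  connected : ∀ Φ Ψ : Flag P, Relation.ReflTransGen
    (fun A B : Flag P => Adj A B ∧ (Φ : Set P) ∩ Ψ ⊆ A ∧ (Φ : Set P) ∩ Ψ ⊆ B) Φ Ψ

/-- Every `2`-face is a `p`-gon and every vertex-figure is a `q`-gon. -/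
def IsEquivelar {P : Type} [PartialOrder P] (rk : P → ℤ) (p q : ℕ) : Prop :=
  (∀ F, rk F = 2 → {v | rk v = 0 ∧ v ≤ F}.ncard = p ∧ {e | rk e = 1 ∧ e ≤ F}.ncard = p) ∧
  (∀ v, rk v = 0 → {e | rk e = 1 ∧ v ≤ e}.ncard = q ∧ {F | rk F = 2 ∧ v ≤ F}.ncard = q)

/-- A duality: an incidence-reversing bijection of `P` onto itself. -/
def IsDuality {P : Type} [PartialOrder P] (δ : P → P) : Prop :=
  Function.Bijective δ ∧ ∀ F G, F ≤ G ↔ δ G ≤ δ F

end Pool.Agent.Y361.Equi
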