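import Pool.Agent.Y361.Ranked
import Pool.Agent.Y361.EquiDefs

set_option autoImplicit false

/-!
# A polyhedron of type `{10, 10}` from the affine plane over `F_5`

Vertices: lines of slope `2` or `-2`; faces: lines of slope `1` or `-1`; edges: triples `(a, b, s)`
with `(a, b)` a point and `s` a sign, incident with the vertices (lines of slope `2`, `-2`) through
`(a - s, b)` and with the faces (lines of slope `1`, `-1`) through `(a + s, b)`. Every vertex is
incident with every face.
-/

namespace Pool.Agent.Y361.Equi

/-- slope of a vertex line -/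
def mu : Bool → ZMod 5
  | true => 2
  | false => 3

/-- slope of a face line -/
def nu : Bool → ZMod 5
  | true => 1
  | false => 4

/-- a sign -/
def sg : Bool → ZMod 5
  | true => 1
  | false => 4

inductive Pt : Type
  | bot
  | vert (m : Bool) (c : ZMod 5)
  | edge (a b : ZMod 5) (s : Bool)
  | face (m : Bool) (c : ZMod 5)
  | top
  deriving DecidableEq

namespace Pt

def equiv : Pt ≃ Option (Option ((Bool × ZMod 5) ⊕ (Bool × ZMod 5) ⊕ (ZMod 5 × ZMod 5 × Bool))) where
  toFun
    | bot => none
    | top => some none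
    | vert m c => some (some (Sum.inl (m, c)))
    | face m c => some (some (Sum.inr (Sum.inl (m, c))))
    | edge a b s => some (some (Sum.inr (Sum.inr (a, b, s))))
  invFun
    | none => bot
    | some none => top
    | some (some (Sum.inl (m, c))) => vert m c
    | some (some (Sum.inr (Sum.inl (m, c)))) => face m c
    | some (some (Sum.inr (Sum.inr (a, b, s)))) => edge a b s
  left_inv x := by cases x <;> rfl
  right_inv x := by
    rcases x with _ | _ | ⟨m, c⟩ | ⟨m, c⟩ | ⟨a, b, s⟩ <;> rfl

instance : Fintype Pt := Fintype.ofEquiv _ equiv.symm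

/-- the order relation -/
def leB : Pt → Pt → Bool
  | bot, _ => true
  | _, top => true
  | vert m c, vert m' c' => m == m' && c == c'
  | vert m c, edge a b s => b == mu m * (a - sg s) + c
  | vert _ _, face _ _ => true
  | edge a b s, edge a' b' s' => a == a' && b == b' && s == s'
  | edge a b s, face m c => b == nu m * (a + sg s) + c
  | face m c, face m' c' => m == m' && c == c'
  | _, _ => false

/-- the rank, shifted by one -/
def rkN : Pt → ℕ
  | bot => 0
  | vert _ _ => 1
  | edge _ _ _ => 2
  | face _ _ => 3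
  | top => 4

/-- the rank -/
def rkZ (x : Pt) : ℤ := (rkN x : ℤ) - 1

lemma leB_refl (x : Pt) : leB x x = true := by
  cases x <;> simp [leB]

lemma leB_trans {x y z : Pt} (h1 : leB x y = true) (h2 : leB y z = true) : leB x z = true := by
  cases x <;> cases y <;> cases z <;> simp_all [leB]
  obtain ⟨⟨rfl, h⟩, rfl⟩ := h2
  exact h.symm

lemma leB_antisymm {x y : Pt} (h1 : leB x y = true) (h2 : leB y x = true) : x = y := by
  cases x <;> cases y <;> simp_all [leB]

instance : PartialOrder Pt where
  le x y := leB x y = true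
  le_refl := leB_refl
  le_trans _ _ _ := leB_trans
  le_antisymm _ _ := leB_antisymm

instance : BoundedOrder Pt where
  top := top
  bot := bot
  le_top x := by cases x <;> rfl
  bot_le x := by cases x <;> rfl

instance : DecidableLE Pt := fun x y => inferInstanceAs (Decidable (leB x y = true))

instance : DecidableLT Pt := fun x y => decidable_of_iff (x ≤ y ∧ x ≠ y) lt_iff_le_and_ne.symm

lemma le_iff {x y : Pt} : x ≤ y ↔ leB x y = true := Iff.rfl

lemma rkN_strictMono : StrictMono rkN := by
  intro x y h
  have h1 := h.le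
  have h2 := h.ne
  rw [le_iff] at h1
  cases x <;> cases y <;> simp_all [leB, rkN]

/-! ### Diamond condition -/

lemma card_mid (x y : Pt) (h : x < y) (hr : rkN y = rkN x + 2) :
    (Finset.univ.filter (fun z => x < z ∧ z < y)).card = 2 := by
  revert x y
  decide +kernel

lemma graded (x y : Pt) (h : x < y) (hr : rkN x + 2 ≤ rkN y) : ∃ z, x < z ∧ z < y := by
  revert x y
  decide +kernel

/-! ### Connectedness of sections -/

def z5 : List (ZMod 5) := [0, 1, 2, 3, 4]

def bb : List Bool := [true, false]

/-- a list of all elements -/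
def all : List Pt :=
  bot :: top :: (bb.flatMap (fun m => z5.map (fun c => vert m c))) ++
    (bb.flatMap (fun m => z5.map (fun c => face m c))) ++
    (bb.flatMap (fun s => z5.flatMap (fun a => z5.map (fun b => edge a b s))))

lemma mem_z5 (a : ZMod 5) : a ∈ z5 := by revert a; decide

lemma mem_bb (a : Bool) : a ∈ bb := by revert a; decide

lemma mem_all (x : Pt) : x ∈ all := by
  cases x <;> simp [all, mem_z5, mem_bb]

/-- the elements strictly between `x` and `y` -/
def mid (x y : Pt) : List Pt :=
  all.filter (fun z => leB x z && leB z y && !(z == x) && !(z == y))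

lemma mem_mid {x y z : Pt} : z ∈ mid x y ↔ x < z ∧ z < y := by
  simp only [mid, List.mem_filter, mem_all, true_and, Bool.and_eq_true, Bool.not_eq_true',
    beq_eq_false_iff_ne, lt_iff_le_and_ne, le_iff]
  tauto

def step (S T : List Pt) : List Pt :=
  S.filter (fun z => T.any (fun w => leB w z || leB z w))

def reach (S : List Pt) : ℕ → List Pt → List Pt
  | 0, T => T
  | n + 1, T => reach S n (step S T)

/-- comparability of two elements of the open interval from `x` to `y` -/
def Cmp (x y : Pt) (a b : Pt) : Prop :=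
  a ∈ Set.Ioo x y ∧ b ∈ Set.Ioo x y ∧ (a ≤ b ∨ b ≤ a)

lemma reach_sound (x y z0 : Pt) : ∀ (n : ℕ) (T : List Pt),
    (∀ t ∈ T, t ∈ Set.Ioo x y ∧ Relation.ReflTransGen (Cmp x y) z0 t) →
    ∀ z ∈ reach (mid x y) n T, Relation.ReflTransGen (Cmp x y) z0 z := by
  intro n
  induction n with
  | zero => intro T hT z hz; exact (hT z hz).2
  | succ n ih =>
    intro T hT z hz
    apply ih (step (mid x y) T) _ z hz
    intro t ht
    rw [step, List.mem_filter, mem_mid, List.any_eq_true] at ht
    obtain ⟨ht, w, hw, h⟩ := ht
    rw [Bool.or_eq_true] at h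
    exact ⟨ht, (hT w hw).2.tail ⟨(hT w hw).1, ht, h⟩⟩

/-- the check of connectedness -/
def conn (x y : Pt) : Bool :=
  match mid x y with
  | [] => true
  | z0 :: S => S.all (fun z => (reach (mid x y) 10 [z0]).contains z)

lemma cmp_back {x y a b : Pt} (h : Relation.ReflTransGen (Cmp x y) a b) :
    Relation.ReflTransGen (Cmp x y) b a := by
  induction h with
  | refl => exact Relation.ReflTransGen.refl
  | tail _ hab ih => exact Relation.ReflTransGen.head ⟨hab.2.1, hab.1, hab.2.2.symm⟩ ih

lemma conn_sound {x y : Pt} (h : conn x y = true) {z w : Pt} (hz : z ∈ Set.Ioo x y)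
    (hw : w ∈ Set.Ioo x y) : Relation.ReflTransGen (Cmp x y) z w := by
  have hz' : z ∈ mid x y := mem_mid.mpr hz
  have hw' : w ∈ mid x y := mem_mid.mpr hw
  unfold conn at h
  generalize hS : mid x y = S at h
  cases S with
  | nil => rw [hS] at hz'; simp at hz'
  | cons z0 S =>
    simp only [List.all_eq_true] at h
    have h0 : z0 ∈ Set.Ioo x y := by
      have : z0 ∈ mid x y := by rw [hS]; exact List.mem_cons_self
      exact mem_mid.mp this
    have key : ∀ u ∈ mid x y, Relation.ReflTransGen (Cmp x y) z0 u := by
      intro u hu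
      rw [hS, List.mem_cons] at hu
      rcases hu with rfl | hu
      · exact Relation.ReflTransGen.refl
      · have h1 := h u hu
        rw [← hS, List.contains_iff_mem] at h1
        refine reach_sound x y z0 10 [z0] ?_ u h1
        intro t ht
        rw [List.mem_singleton] at ht
        subst ht
        exact ⟨h0, Relation.ReflTransGen.refl⟩
    exact (cmp_back (key z hz')).trans (key w hw')

lemma all_conn : ∀ x y : Pt, rkN x + 3 ≤ rkN y → conn x y = true := by
  decide +kernel

lemma sections (x y : Pt) (hr : rkN x + 3 ≤ rkN y) (z w : Pt)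
    (hz : z ∈ Set.Ioo x y) (hw : w ∈ Set.Ioo x y) :
    Relation.ReflTransGen (fun a b => b ∈ Set.Ioo x y ∧ (a ≤ b ∨ b ≤ a)) z w :=
  (Relation.ReflTransGen.mono (fun _ _ h => ⟨h.2.1, h.2.2⟩)) _ _
    (conn_sound (all_conn x y hr) hz hw)

/-! ### The poset is a polyhedron -/

lemma flag_ranks (A : Flag Pt) : rkN '' (A : Set Pt) = Set.Iic (3 + 1) :=
  Ranked.flag_ranks_of_graded rkN_strictMono rfl rfl graded A

theorem isPolyhedron : IsPolyhedron rkZ where
  strictMono x y h := by
    have := rkN_strictMono h
    unfold rkZ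
    omega
  range := by
    ext i
    constructor
    · rintro ⟨x, rfl⟩
      cases x <;> simp [rkZ, rkN]
    · rintro (h | h | h | h | h)
      · exact ⟨bot, by rw [h]; rfl⟩
      · exact ⟨vert true 0, by rw [h]; rfl⟩
      · exact ⟨edge 0 0 true, by rw [h]; rfl⟩
      · exact ⟨face true 0, by rw [h]; rfl⟩
      · exact ⟨top, by rw [h]; rfl⟩
  least := ⟨bot, rfl, fun G => bot_le⟩
  greatest := ⟨top, rfl, fun G => le_top⟩
  flag_card Φ := by
    have := Ranked.flag_ncard rkN_strictMono flag_ranks Φ
    exact this
  diamond j F G hFG hF hG := by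
    have h1 : rkN G = rkN F + 2 := by unfold rkZ at hF hG; omega
    have hlt : F < G := lt_of_le_of_ne hFG (by rintro rfl; omega)
    have h2 := card_mid F G hlt h1
    rw [← h2, ← Set.ncard_coe_finset]
    congr 1
    ext H
    simp only [Set.mem_ofPred_eq, Finset.coe_filter, Finset.mem_univ, true_and]
    constructor
    · rintro ⟨h3, h4, h5⟩
      exact ⟨lt_of_le_of_ne h4 (by rintro rfl; omega), lt_of_le_of_ne h5 (by rintro rfl; omega)⟩
    · rintro ⟨h3, h4⟩
      have h5 := rkN_strictMono h3
      have h6 := rkN_strictMono h4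
      refine ⟨?_, h3.le, h4.le⟩
      unfold rkZ at hF hG ⊢
      omega
  connected Φ Ψ := by
    have h := Ranked.connected_of_sections (n := 3) rkN_strictMono flag_ranks
      (fun F G _ hr H hH K hK => sections F G hr H K hH hK) Φ Ψ
    -- every flag on the path contains the common part
    have key : ∀ C, Relation.ReflTransGen
        (fun C D : Flag Pt => Ranked.FlagAdj C D ∧ (Φ : Set Pt) ∩ Ψ ⊆ D) Φ C →
        (Φ : Set Pt) ∩ Ψ ⊆ C ∧ Relation.ReflTransGen
          (fun A B : Flag Pt => Adj A B ∧ (Φ : Set Pt) ∩ Ψ ⊆ A ∧ (Φ : Set Pt) ∩ Ψ ⊆ B) Φ C := by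
      intro C hC
      induction hC with
      | refl => exact ⟨Set.inter_subset_left, Relation.ReflTransGen.refl⟩
      | tail _ hbc ih => exact ⟨hbc.2, ih.2.tail ⟨hbc.1, ih.1, hbc.2⟩⟩
    exact (key Ψ h).2

end Pt

end Pool.Agent.Y361.Equi
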