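import Pool.Agent.Y361.EquiModel

set_option autoImplicit false

/-!
# The polyhedron is equivelar, self-dual and fully transitive, but has no polarity
-/

namespace Pool.Agent.Y361.Equi.Pt

/-! ### Type `{10, 10}` -/

lemma card_face_vert : ∀ F : Pt, rkN F = 3 →
    (Finset.univ.filter (fun v : Pt => rkN v = 1 ∧ v ≤ F)).card = 10 := by decide +kernel

lemma card_face_edge : ∀ F : Pt, rkN F = 3 →
    (Finset.univ.filter (fun v : Pt => rkN v = 2 ∧ v ≤ F)).card = 10 := by decide +kernel

lemma card_vert_edge : ∀ F : Pt, rkN F = 1 →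
    (Finset.univ.filter (fun v : Pt => rkN v = 2 ∧ F ≤ v)).card = 10 := by decide +kernel

lemma card_vert_face : ∀ F : Pt, rkN F = 1 →
    (Finset.univ.filter (fun v : Pt => rkN v = 3 ∧ F ≤ v)).card = 10 := by decide +kernel

lemma rkZ_eq {x : Pt} {k : ℕ} : rkZ x = (k : ℤ) ↔ rkN x = k + 1 := by
  unfold rkZ; omega

theorem isEquivelar : IsEquivelar rkZ 10 10 := by
  refine ⟨fun F hF => ⟨?_, ?_⟩, fun v hv => ⟨?_, ?_⟩⟩
  · rw [← card_face_vert F (by unfold rkZ at hF; omega), ← Set.ncard_coe_finset]
    congr 1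
    ext H
    simp only [Set.mem_ofPred_eq, Finset.coe_filter, Finset.mem_univ, true_and]
    exact and_congr_left' (rkZ_eq (k := 0))
  · rw [← card_face_edge F (by unfold rkZ at hF; omega), ← Set.ncard_coe_finset]
    congr 1
    ext H
    simp only [Set.mem_ofPred_eq, Finset.coe_filter, Finset.mem_univ, true_and]
    exact and_congr_left' (rkZ_eq (k := 1))
  · rw [← card_vert_edge v (by unfold rkZ at hv; omega), ← Set.ncard_coe_finset]
    congr 1
    ext H
    simp only [Set.mem_ofPred_eq, Finset.coe_filter, Finset.mem_univ, true_and]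
    exact and_congr_left' (rkZ_eq (k := 1))
  · rw [← card_vert_face v (by unfold rkZ at hv; omega), ← Set.ncard_coe_finset]
    congr 1
    ext H
    simp only [Set.mem_ofPred_eq, Finset.coe_filter, Finset.mem_univ, true_and]
    exact and_congr_left' (rkZ_eq (k := 2))

/-! ### A duality -/

/-- the duality induced by `(u, v) ↦ (-u, 2 v)` -/
def dual : Pt → Pt
  | bot => top
  | vert m c => face m (2 * c)
  | edge a b s => edge (-a) (2 * b) s
  | face m c => vert (!m) (2 * c)
  | top => bot

lemma dual_inj : ∀ x y, dual x = dual y → x = y := by decide +kernel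

lemma dual_le : ∀ x y : Pt, x ≤ y ↔ dual y ≤ dual x := by decide +kernel

theorem isDuality : IsDuality dual :=
  ⟨Finite.injective_iff_bijective.mp fun x y => dual_inj x y, dual_le⟩

/-! ### Automorphisms -/

/-- the translation by `(t, u)` -/
def trans (t u : ZMod 5) : Pt → Pt
  | bot => bot
  | vert m c => vert m (c - mu m * t + u)
  | edge a b s => edge (a + t) (b + u) s
  | face m c => face m (c - nu m * t + u)
  | top => top

/-- the reflection in the first coordinate axis -/
def refl : Pt → Pt
  | bot => bot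
  | vert m c => vert (!m) (-c)
  | edge a b s => edge a (-b) s
  | face m c => face (!m) (-c)
  | top => top

/-- the point reflection in the origin -/
def inv : Pt → Pt
  | bot => bot
  | vert m c => vert m (-c)
  | edge a b s => edge (-a) (-b) (!s)
  | face m c => face m (-c)
  | top => top

lemma trans_trans (t u : ZMod 5) (x : Pt) : trans (-t) (-u) (trans t u x) = x := by
  cases x <;> simp [trans]
  all_goals ring

lemma trans_le (t u : ZMod 5) (x y : Pt) : trans t u x ≤ trans t u y ↔ x ≤ y := by
  have h : ∀ (t u : ZMod 5) (x y : Pt), x ≤ y → trans t u x ≤ trans t u y := by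
    intro t u x y hxy
    rw [le_iff] at hxy ⊢
    cases x <;> cases y <;> simp_all [leB, trans]
    all_goals ring
  constructor
  · intro hxy
    have := h (-t) (-u) _ _ hxy
    rwa [trans_trans, trans_trans] at this
  · exact h t u x y

def transIso (t u : ZMod 5) : Pt ≃o Pt where
  toFun := trans t u
  invFun := trans (-t) (-u)
  left_inv := trans_trans t u
  right_inv x := by
    have := trans_trans (-t) (-u) x
    rwa [neg_neg, neg_neg] at this
  map_rel_iff' := by
    intro x y
    exact trans_le t u x y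

lemma refl_le : ∀ x y : Pt, refl x ≤ refl y ↔ x ≤ y := by decide +kernel

lemma refl_refl (x : Pt) : refl (refl x) = x := by cases x <;> simp [refl]

def reflIso : Pt ≃o Pt where
  toFun := refl
  invFun := refl
  left_inv := refl_refl
  right_inv := refl_refl
  map_rel_iff' := by
    intro x y
    exact refl_le x y

lemma inv_le : ∀ x y : Pt, inv x ≤ inv y ↔ x ≤ y := by decide +kernel

lemma inv_inv (x : Pt) : inv (inv x) = x := by cases x <;> simp [inv]

def invIso : Pt ≃o Pt where
  toFun := inv
  invFun := inv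
  left_inv := inv_inv
  right_inv := inv_inv
  map_rel_iff' := by
    intro x y
    exact inv_le x y

/-- the automorphism group is transitive on the faces of each rank -/
theorem transitive (x y : Pt) (h : rkZ x = rkZ y) : ∃ g : Pt ≃o Pt, g x = y := by
  have hr : rkN x = rkN y := by unfold rkZ at h; omega
  cases x <;> cases y <;> simp [rkN] at hr
  · exact ⟨OrderIso.refl _, rfl⟩
  · rename_i m c m' c'
    by_cases hm : m = m'
    · subst hm
      refine ⟨transIso 0 (c' - c), ?_⟩
      change trans 0 (c' - c) (vert m c) = _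
      simp [trans]
    · refine ⟨reflIso.trans (transIso 0 (c' + c)), ?_⟩
      change trans 0 (c' + c) (refl (vert m c)) = _
      have : (!m) = m' := by
        clear h; revert hm; revert m m'; decide
      simp [trans, refl, this]
  · rename_i a b s a' b' s'
    by_cases hs : s = s'
    · subst hs
      refine ⟨transIso (a' - a) (b' - b), ?_⟩
      change trans (a' - a) (b' - b) (edge a b s) = _
      simp [trans]
    · refine ⟨invIso.trans (transIso (a' + a) (b' + b)), ?_⟩
      change trans (a' + a) (b' + b) (inv (edge a b s)) = _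
      have : (!s) = s' := by
        clear h; revert hs; revert s s'; decide
      simp [trans, inv, this]
  · rename_i m c m' c'
    by_cases hm : m = m'
    · subst hm
      refine ⟨transIso 0 (c' - c), ?_⟩
      change trans 0 (c' - c) (face m c) = _
      simp [trans]
    · refine ⟨reflIso.trans (transIso 0 (c' + c)), ?_⟩
      change trans 0 (c' + c) (refl (face m c)) = _
      have : (!m) = m' := by
        clear h; revert hm; revert m m'; decide
      simp [trans, refl, this]
  · exact ⟨OrderIso.refl _, rfl⟩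

/-! ### Flags in coordinates -/

/-- the end vertex of slope `mu m` of an edge -/
def vtx (a b : ZMod 5) (s m : Bool) : Pt := vert m (b - mu m * (a - sg s))

/-- the face of slope `nu m` at an edge -/
def fac (a b : ZMod 5) (s m : Bool) : Pt := face m (b - nu m * (a + sg s))

def A1 (a : ZMod 5) (s m n : Bool) : ZMod 5 := a + 2 * sg s * mu m * nu n

def B1 (b : ZMod 5) (s m n : Bool) : ZMod 5 := b + 2 * sg s * (mu m - nu n)

lemma chain_lt : ∀ (a b : ZMod 5) (s m n : Bool),
    bot < vtx a b s m ∧ vtx a b s m < edge a b s ∧ edge a b s < fac a b s n ∧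
      fac a b s n < top := by decide +kernel

lemma exists_chain (x : Pt) : ∃ (a b : ZMod 5) (s m n : Bool),
    x = bot ∨ x = vtx a b s m ∨ x = edge a b s ∨ x = fac a b s n ∨ x = top := by
  cases x with
  | bot => exact ⟨0, 0, true, true, true, Or.inl rfl⟩
  | vert m c => exact ⟨1, c, true, m, true, Or.inr (Or.inl (by simp [vtx, sg]))⟩
  | edge a b s => exact ⟨a, b, s, true, true, Or.inr (Or.inr (Or.inl rfl))⟩
  | face m c => exact ⟨-1, c, true, true, m, Or.inr (Or.inr (Or.inr (Or.inl (by simp [fac, sg]))))⟩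
  | top => exact ⟨0, 0, true, true, true, Or.inr (Or.inr (Or.inr (Or.inr rfl)))⟩

lemma rkN_le (x : Pt) : rkN x ≤ 4 := by cases x <;> simp [rkN]

lemma dual_lt {δ : Pt → Pt} (h : IsDuality δ) {x y : Pt} (hxy : x < y) : δ y < δ x :=
  lt_of_le_of_ne ((h.2 x y).mp hxy.le) (fun e => hxy.ne (h.1.1 e).symm)

lemma dual_rk {δ : Pt → Pt} (h : IsDuality δ) (x : Pt) : rkN (δ x) = 4 - rkN x := by
  obtain ⟨a, b, s, m, n, hx⟩ := exists_chain x
  obtain ⟨h1, h2, h3, h4⟩ := chain_lt a b s m n
  have g1 := rkN_strictMono (dual_lt h h1)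
  have g2 := rkN_strictMono (dual_lt h h2)
  have g3 := rkN_strictMono (dual_lt h h3)
  have g4 := rkN_strictMono (dual_lt h h4)
  have g5 := rkN_le (δ bot)
  rcases hx with rfl | rfl | rfl | rfl | rfl
  · change _ = 4 - 0; omega
  · change _ = 4 - 1; omega
  · change _ = 4 - 2; omega
  · change _ = 4 - 3; omega
  · change _ = 4 - 4; omega

/-- an element between a vertex and a face -/
lemma between : ∀ (a b : ZMod 5) (s m n : Bool) (x : Pt), vtx a b s m < x → x < fac a b s n →
    x = edge a b s ∨ x = edge (A1 a s m n) (B1 b s m n) (!s) := by decide +kernel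

lemma other_ne : ∀ (a b : ZMod 5) (s m n : Bool),
    edge (A1 a s m n) (B1 b s m n) (!s) ≠ edge a b s := by decide +kernel

lemma vtx_other : ∀ (a b : ZMod 5) (s m n : Bool),
    vtx (A1 a s m n) (B1 b s m n) (!s) m = vtx a b s m := by decide +kernel

lemma fac_other : ∀ (a b : ZMod 5) (s m n : Bool),
    fac (A1 a s m n) (B1 b s m n) (!s) n = fac a b s n := by decide +kernel

lemma below : ∀ (a b : ZMod 5) (s m : Bool) (x : Pt), x < edge a b s → rkN x = 1 →
    x = vtx a b s m ∨ x = vtx a b s (!m) := by decide +kernel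

lemma fac_ne : ∀ (a b : ZMod 5) (s n : Bool), fac a b s (!n) ≠ fac a b s n := by decide +kernel

/-- a duality maps one flag (in coordinates) to another one -/
def Maps (δ : Pt → Pt) (a b : ZMod 5) (s m n : Bool) (a' b' : ZMod 5) (s' m' n' : Bool) : Prop :=
  δ (vtx a b s m) = fac a' b' s' n' ∧ δ (edge a b s) = edge a' b' s' ∧
    δ (fac a b s n) = vtx a' b' s' m'

lemma maps1 {δ : Pt → Pt} (h : IsDuality δ) {a b : ZMod 5} {s m n : Bool} {a' b' : ZMod 5}
    {s' m' n' : Bool} (hm : Maps δ a b s m n a' b' s' m' n') :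
    Maps δ (A1 a s m n) (B1 b s m n) (!s) m n (A1 a' s' m' n') (B1 b' s' m' n') (!s') m' n' := by
  obtain ⟨h1, h2, h3⟩ := hm
  refine ⟨?_, ?_, ?_⟩
  · rw [vtx_other, fac_other, h1]
  · have g1 : vtx a b s m < edge (A1 a s m n) (B1 b s m n) (!s) := by
      rw [← vtx_other a b s m n]
      exact (chain_lt _ _ _ _ true).2.1
    have g2 : edge (A1 a s m n) (B1 b s m n) (!s) < fac a b s n := by
      rw [← fac_other a b s m n]
      exact (chain_lt _ _ _ true _).2.2.1
    have g3 := dual_lt h g1
    have g4 := dual_lt h g2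
    rw [h1] at g3
    rw [h3] at g4
    rcases between a' b' s' m' n' _ g4 g3 with g5 | g5
    · rw [← h2] at g5
      exact absurd (h.1.1 g5) (other_ne a b s m n)
    · exact g5
  · rw [vtx_other, fac_other, h3]

lemma maps2 {δ : Pt → Pt} (h : IsDuality δ) {a b : ZMod 5} {s m n : Bool} {a' b' : ZMod 5}
    {s' m' n' : Bool} (hm : Maps δ a b s m n a' b' s' m' n') :
    Maps δ a b s m (!n) a' b' s' (!m') n' := by
  obtain ⟨h1, h2, h3⟩ := hm
  refine ⟨h1, h2, ?_⟩
  have g1 := dual_lt h (chain_lt a b s m (!n)).2.2.1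
  rw [h2] at g1
  have g2 : rkN (δ (fac a b s (!n))) = 1 := by rw [dual_rk h]; rfl
  rcases below a' b' s' m' _ g1 g2 with g3 | g3
  · rw [← h3] at g3
    exact absurd (h.1.1 g3) (fac_ne a b s n)
  · exact g3

/-! ### The third edge -/

def A2 (a : ZMod 5) (s m n : Bool) : ZMod 5 := A1 (A1 a s m n) (!s) m (!n)
def B2 (b : ZMod 5) (s m n : Bool) : ZMod 5 := B1 (B1 b s m n) (!s) m (!n)
def A3 (a : ZMod 5) (s m n : Bool) : ZMod 5 := A1 (A2 a s m n) (!!s) m (!!n)
def B3 (b : ZMod 5) (s m n : Bool) : ZMod 5 := B1 (B2 b s m n) (!!s) m (!!n)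

def A2' (a : ZMod 5) (s m n : Bool) : ZMod 5 := A1 (A1 a s m n) (!s) (!m) n
def B2' (b : ZMod 5) (s m n : Bool) : ZMod 5 := B1 (B1 b s m n) (!s) (!m) n
def A3' (a : ZMod 5) (s m n : Bool) : ZMod 5 := A1 (A2' a s m n) (!!s) (!!m) n
def B3' (b : ZMod 5) (s m n : Bool) : ZMod 5 := B1 (B2' b s m n) (!!s) (!!m) n

lemma maps3 {δ : Pt → Pt} (h : IsDuality δ) {a b : ZMod 5} {s m n : Bool} {a' b' : ZMod 5}
    {s' m' n' : Bool} (hm : Maps δ a b s m n a' b' s' m' n') :
    δ (edge (A3 a s m n) (B3 b s m n) (!!!s)) = edge (A3' a' s' m' n') (B3' b' s' m' n') (!!!s') :=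
  (maps1 h (maps2 h (maps1 h (maps2 h (maps1 h hm))))).2.1

/-- the third edge around the vertex has the same end vertices as the first one -/
def Twin (a b : ZMod 5) (s m n : Bool) : Prop :=
  ∀ u : Pt, rkN u = 1 → (u ≤ edge (A3 a s m n) (B3 b s m n) (!!!s) ↔ u ≤ edge a b s)

/-- the third edge around the face lies in the same faces as the first one -/
def Cotwin (a b : ZMod 5) (s m n : Bool) : Prop :=
  ∀ u : Pt, rkN u = 3 → (edge (A3' a s m n) (B3' b s m n) (!!!s) ≤ u ↔ edge a b s ≤ u)

instance (a b : ZMod 5) (s m n : Bool) : Decidable (Twin a b s m n) := by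
  unfold Twin; infer_instance

instance (a b : ZMod 5) (s m n : Bool) : Decidable (Cotwin a b s m n) := by
  unfold Cotwin; infer_instance

lemma twin_iff : ∀ (a b : ZMod 5) (s m n : Bool), Twin a b s m n ↔ m ≠ n := by decide +kernel

lemma cotwin_iff : ∀ (a b : ZMod 5) (s m n : Bool), Cotwin a b s m n ↔ m = n := by decide +kernel

lemma exists_flag : ∀ (n : Bool) (c : ZMod 5), ∃ (a b : ZMod 5) (s : Bool),
    vtx a b s true = vert true 0 ∧ fac a b s n = face n c := by decide +kernel

theorem no_polarity : ¬ ∃ δ : Pt → Pt, IsDuality δ ∧ ∀ x, δ (δ x) = x := by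
  rintro ⟨δ, h, hinv⟩
  obtain ⟨n, c, hf⟩ : ∃ n c, δ (vert true 0) = face n c := by
    have h1 : rkN (δ (vert true 0)) = 3 := dual_rk h _
    cases hx : δ (vert true 0) <;> rw [hx] at h1 <;> simp [rkN] at h1
    exact ⟨_, _, rfl⟩
  obtain ⟨a, b, s, hv, hc⟩ := exists_flag n c
  rw [← hv, ← hc] at hf
  have hf' : δ (fac a b s n) = vtx a b s true := by rw [← hf, hinv]
  obtain ⟨a', b', s', he, hv', hc'⟩ : ∃ a' b' s', δ (edge a b s) = edge a' b' s' ∧
      vtx a' b' s' true = vtx a b s true ∧ fac a' b' s' n = fac a b s n := by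
    have g1 := dual_lt h (chain_lt a b s true n).2.1
    have g2 := dual_lt h (chain_lt a b s true n).2.2.1
    rw [hf] at g1
    rw [hf'] at g2
    rcases between a b s true n _ g2 g1 with g3 | g3
    · exact ⟨a, b, s, g3, rfl, rfl⟩
    · exact ⟨_, _, _, g3, vtx_other _ _ _ _ _, fac_other _ _ _ _ _⟩
  have hm : Maps δ a b s true n a' b' s' true n := ⟨by rw [hf, hc'], he, by rw [hf', hv']⟩
  have h3 := maps3 h hm
  have key : Twin a b s true n ↔ Cotwin a' b' s' true n := by
    constructor
    · intro ht u hu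
      have hu' : rkN (δ u) = 1 := by rw [dual_rk h, hu]
      have := ht (δ u) hu'
      rw [← h3, ← he]
      rw [h.2, h.2 _ (edge a b s), hinv] at this
      exact this
    · intro ht u hu
      have hu' : rkN (δ u) = 3 := by rw [dual_rk h, hu]
      have := ht (δ u) hu'
      rw [← h3, ← he, ← h.2, ← h.2] at this
      exact this
  rw [twin_iff, cotwin_iff] at key
  by_cases hn : true = n
  · exact key.mpr hn hn
  · exact hn (key.mp hn)

end Pool.Agent.Y361.Equi.Pt
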