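import Mathlib

/-!
# Ranked posets: flags and strong flag-connectedness

General lemmas on flags of bounded posets with a strictly monotone rank function (taken over from
the earlier development of `Pool.Agent.Results.MP_993768_co.NoUniversalRooted`): a finite graded
bounded poset has flags meeting every rank, and connectedness of all sections of rank at least two
gives strong flag-connectedness.
-/

set_option autoImplicit false
set_option linter.unusedSectionVars false

namespace Pool.Agent.Y361.Ranked

open Set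

/-- Two flags (maximal chains) are adjacent when they differ in exactly one face. -/
def FlagAdj {α : Type} [PartialOrder α] (A B : Flag α) : Prop :=
  ((A : Set α) \ B).ncard = 1 ∧ ((B : Set α) \ A).ncard = 1

section ranked

variable {α : Type} [PartialOrder α] [BoundedOrder α] {rk : α → ℕ} {n : ℕ}

lemma flag_unique (hm : StrictMono rk) (A : Flag α) {x y : α} (hx : x ∈ A) (hy : y ∈ A)
    (h : rk x = rk y) : x = y := by
  rcases A.le_or_le hx hy with h1 | h1
  · rcases h1.eq_or_lt with h2 | h2
    · exact h2
    · exact absurd (hm h2) (by omega)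
  · rcases h1.eq_or_lt with h2 | h2
    · exact h2.symm
    · exact absurd (hm h2) (by omega)

lemma flag_injOn (hm : StrictMono rk) (A : Flag α) : Set.InjOn rk (A : Set α) :=
  fun _ hx _ hy h => flag_unique hm A hx hy h

lemma flag_finite (hm : StrictMono rk) (hf : ∀ A : Flag α, rk '' (A : Set α) = Set.Iic (n + 1))
    (A : Flag α) : (A : Set α).Finite := by
  apply Set.Finite.of_finite_image _ (flag_injOn hm A)
  rw [hf A]; exact Set.finite_Iic _

lemma flag_ncard (hm : StrictMono rk) (hf : ∀ A : Flag α, rk '' (A : Set α) = Set.Iic (n + 1))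
    (A : Flag α) : (A : Set α).ncard = n + 2 := by
  rw [← (flag_injOn hm A).ncard_image, hf A]
  rw [Set.ncard_eq_toFinset_card']
  simp

lemma flag_exists (hf : ∀ A : Flag α, rk '' (A : Set α) = Set.Iic (n + 1))
    (A : Flag α) {i : ℕ} (hi : i ≤ n + 1) : ∃ x ∈ A, rk x = i := by
  have : i ∈ rk '' (A : Set α) := by rw [hf A]; exact hi
  obtain ⟨x, hx, h⟩ := this
  exact ⟨x, hx, h⟩

lemma flag_lt (hm : StrictMono rk) (A : Flag α) {x y : α} (hx : x ∈ A) (hy : y ∈ A)
    (h : rk x < rk y) : x < y := by
  rcases A.le_or_le hx hy with h1 | h1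
  · rcases h1.eq_or_lt with h2 | h2
    · subst h2; omega
    · exact h2
  · rcases h1.eq_or_lt with h2 | h2
    · subst h2; omega
    · exact absurd (hm h2) (by omega)

lemma flag_le (hm : StrictMono rk) (A : Flag α) {x y : α} (hx : x ∈ A) (hy : y ∈ A)
    (h : rk x ≤ rk y) : x ≤ y := by
  rcases h.lt_or_eq with h1 | h1
  · exact (flag_lt hm A hx hy h1).le
  · exact (flag_unique hm A hx hy h1).le

lemma flag_eq_of_subset {A B : Flag α} (h : (A : Set α) ⊆ B) : A = B := by
  apply SetLike.coe_injective
  exact A.max_chain' B.Chain' h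

/-- a chain meeting every rank is a flag -/
lemma chain_is_flag (hm : StrictMono rk)
    (hf : ∀ A : Flag α, rk '' (A : Set α) = Set.Iic (n + 1)) {c : Set α}
    (hc : IsChain (· ≤ ·) c) (hr : Set.Iic (n + 1) ⊆ rk '' c) :
    ∃ A : Flag α, (A : Set α) = c := by
  obtain ⟨A, hA⟩ := hc.exists_subset_flag
  refine ⟨A, Set.Subset.antisymm ?_ hA⟩
  intro x hx
  have h1 : rk x ∈ Set.Iic (n + 1) := by rw [← hf A]; exact ⟨x, hx, rfl⟩
  obtain ⟨y, hy, hxy⟩ := hr h1
  have := flag_unique hm A (hA hy) hx hxy
  rwa [← this]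

/-- exchanging a single face -/
lemma exchange (hm : StrictMono rk)
    (hf : ∀ A : Flag α, rk '' (A : Set α) = Set.Iic (n + 1)) (A : Flag α) {x y F G : α}
    (hx : x ∈ A) (hF : F ∈ A) (hG : G ∈ A) (hFx : rk x = rk F + 1) (hGx : rk G = rk x + 1)
    (hFy : F < y) (hyG : y < G) (hxy : x ≠ y) :
    ∃ B : Flag α, (B : Set α) = insert y ((A : Set α) \ {x}) ∧ FlagAdj A B ∧ y ∉ A := by
  have hry : rk y = rk x := by
    have := hm hFy; have := hm hyG; omega
  have hyA : y ∉ A := fun h => hxy (flag_unique hm A hx h hry.symm)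
  have hc : IsChain (· ≤ ·) (insert y ((A : Set α) \ {x})) := by
    apply (A.chain_le.mono Set.sdiff_subset).insert
    intro b hb _
    have hbA : b ∈ A := hb.1
    have hbx : rk b ≠ rk x := fun h => hb.2 (flag_unique hm A hbA hx h)
    rcases lt_or_gt_of_ne hbx with h | h
    · right
      exact (flag_le hm A hbA hF (by omega)).trans hFy.le
    · left
      exact hyG.le.trans (flag_le hm A hG hbA (by omega))
  obtain ⟨B, hB⟩ := chain_is_flag hm hf hc (by
    rw [← hf A]
    rintro _ ⟨b, hb, rfl⟩
    by_cases h : b = x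
    · exact ⟨y, Set.mem_insert _ _, by rw [h]; exact hry⟩
    · exact ⟨b, Set.mem_insert_of_mem _ ⟨hb, h⟩, rfl⟩)
  refine ⟨B, hB, ⟨?_, ?_⟩, hyA⟩
  · have : (A : Set α) \ B = {x} := by
      rw [hB]; ext b
      constructor
      · rintro ⟨h1, h2⟩
        by_contra h3
        exact h2 (Set.mem_insert_of_mem _ ⟨h1, h3⟩)
      · rintro rfl
        refine ⟨hx, ?_⟩
        rintro (h | h)
        · exact hxy h
        · exact h.2 rfl
    rw [this]; exact Set.ncard_singleton _
  · have : (B : Set α) \ A = {y} := by
      rw [hB]; ext b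
      constructor
      · rintro ⟨h1 | h1, h2⟩
        · exact h1
        · exact (h2 h1.1).elim
      · rintro rfl
        exact ⟨Set.mem_insert _ _, hyA⟩
    rw [this]; exact Set.ncard_singleton _

/-- If all sections of rank at least two are connected, the poset is strongly flag-connected. -/
theorem connected_of_sections (hm : StrictMono rk)
    (hf : ∀ A : Flag α, rk '' (A : Set α) = Set.Iic (n + 1))
    (hs : ∀ F G : α, F < G → rk F + 3 ≤ rk G → ∀ H ∈ Set.Ioo F G, ∀ K ∈ Set.Ioo F G,
      Relation.ReflTransGen (fun a b => b ∈ Set.Ioo F G ∧ (a ≤ b ∨ b ≤ a)) H K) :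
    ∀ A B : Flag α, Relation.ReflTransGen
      (fun C D : Flag α => FlagAdj C D ∧ (A : Set α) ∩ B ⊆ D) A B := by
  have key : ∀ k : ℕ, ∀ A B : Flag α, n + 2 - ((A : Set α) ∩ B).ncard = k →
      Relation.ReflTransGen (fun C D : Flag α => FlagAdj C D ∧ (A : Set α) ∩ B ⊆ D) A B := by
    intro k
    induction k using Nat.strong_induction_on with
    | _ k ih =>
    intro A B hk
    by_cases hAB : A = B
    · subst hAB; exact Relation.ReflTransGen.refl
    have hAfin := flag_finite hm hf A
    have hAcard := flag_ncard hm hf A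
    -- for flags sharing more, use the induction hypothesis
    have ih' : ∀ C D : Flag α, ((A : Set α) ∩ B).ncard < ((C : Set α) ∩ D).ncard →
        (A : Set α) ∩ B ⊆ (C : Set α) ∩ D →
        Relation.ReflTransGen (fun X Y : Flag α => FlagAdj X Y ∧ (A : Set α) ∩ B ⊆ Y) C D := by
      intro C D h1 h2
      have h3 : ((A : Set α) ∩ B).ncard ≤ n + 2 := by
        rw [← hAcard]; exact Set.ncard_le_ncard Set.inter_subset_left hAfin
      have h4 : ((C : Set α) ∩ D).ncard ≤ n + 2 := by
        rw [← flag_ncard hm hf C]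
        exact Set.ncard_le_ncard Set.inter_subset_left (flag_finite hm hf C)
      have := ih (n + 2 - ((C : Set α) ∩ D).ncard) (by omega) C D rfl
      refine (Relation.ReflTransGen.mono ?_) C D this
      intro X Y h
      exact ⟨h.1, h2.trans h.2⟩
    -- the ranks where A and B differ
    have hex : ∃ i, i ≤ n + 1 ∧ ∃ x ∈ A, rk x = i ∧ x ∉ B := by
      by_contra hcon
      push Not at hcon
      apply hAB
      apply flag_eq_of_subset
      intro x hx
      have : rk x ∈ Set.Iic (n + 1) := by rw [← hf A]; exact ⟨x, hx, rfl⟩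
      exact hcon (rk x) this x hx rfl
    classical
    obtain ⟨hi1, x, hxA, hxi, hxB⟩ := Nat.find_spec hex
    set i := Nat.find hex with hi
    have himin : ∀ y ∈ A, rk y < i → y ∈ B := by
      intro y hy hyi
      by_contra hyB
      have h1 : rk y ≤ n + 1 := by omega
      exact Nat.find_min hex hyi ⟨h1, y, hy, rfl, hyB⟩
    have hbotrk : rk (⊥ : α) < i := by
      have hne : (⊥ : α) ≠ x := fun h => hxB (h ▸ B.bot_mem)
      rw [← hxi]; exact hm (lt_of_le_of_ne bot_le hne)
    have hi0 : 0 < i := by omega
    obtain ⟨F, hFA, hFi⟩ := flag_exists hf A (show i - 1 ≤ n + 1 by omega)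
    have hFB : F ∈ B := himin F hFA (by omega)
    -- the next common rank
    have hex2 : ∃ j, i < j ∧ ∃ y ∈ A, rk y = j ∧ y ∈ B := by
      refine ⟨rk (⊤ : α), ?_, ⊤, A.top_mem, rfl, B.top_mem⟩
      have hne : x ≠ (⊤ : α) := fun h => hxB (h ▸ B.top_mem)
      rw [← hxi]; exact hm (lt_of_le_of_ne le_top hne)
    obtain ⟨hij, G, hGA, hGj, hGB⟩ := Nat.find_spec hex2
    set j := Nat.find hex2 with hj
    have hjmin : ∀ y ∈ A, i < rk y → rk y < j → y ∉ B := by
      intro y hy h1 h2 h3
      exact Nat.find_min hex2 h2 ⟨h1, y, hy, rfl, h3⟩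
    have hcommon : ∀ y ∈ (A : Set α) ∩ B, y ≤ F ∨ G ≤ y := by
      rintro y ⟨hy1, hy2⟩
      by_contra hcon
      rw [not_or] at hcon
      have h1 : rk F < rk y := by
        by_contra h
        exact hcon.1 (flag_le hm A hy1 hFA (by omega))
      have h2 : rk y < rk G := by
        by_contra h
        exact hcon.2 (flag_le hm A hGA hy1 (by omega))
      rcases Nat.lt_or_ge i (rk y) with h3 | h3
      · exact hjmin y hy1 h3 (by omega) hy2
      · have h4 : rk y = rk x := by omega
        exact hxB ((flag_unique hm A hy1 hxA h4) ▸ hy2)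
    obtain ⟨y, hyB, hyi⟩ := flag_exists hf B hi1
    have hyA : y ∉ A := by
      intro h
      have : x = y := flag_unique hm A hxA h (by omega)
      exact hxB (this ▸ hyB)
    have hxy : x ≠ y := fun h => hyA (h ▸ hxA)
    have hFx : F < x := flag_lt hm A hFA hxA (by omega)
    have hxG : x < G := flag_lt hm A hxA hGA (by omega)
    have hFy : F < y := flag_lt hm B hFB hyB (by omega)
    have hyG : y < G := flag_lt hm B hyB hGB (by omega)
    have hABfin : ((A : Set α) ∩ B).Finite := hAfin.subset Set.inter_subset_left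
    -- extending the common part
    have hbig : ∀ C D : Flag α, (A : Set α) ∩ B ⊆ (C : Set α) ∩ D →
        (∃ z ∈ (C : Set α) ∩ D, z ∉ (A : Set α) ∩ B) →
        ((A : Set α) ∩ B).ncard < ((C : Set α) ∩ D).ncard := by
      rintro C D h1 ⟨z, hz1, hz2⟩
      apply Set.ncard_lt_ncard
      · exact ⟨h1, fun h => hz2 (h hz1)⟩
      · exact (flag_finite hm hf C).subset Set.inter_subset_left
    rcases Nat.lt_or_ge j (i + 2) with hcase | hcase
    · -- a single exchange
      obtain ⟨C, hC, hadj, _⟩ := exchange hm hf A hxA hFA hGA (by omega) (by omega) hFy hyG hxy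
      have hsub : (A : Set α) ∩ B ⊆ C := by
        rintro z ⟨hz1, hz2⟩
        rw [hC]
        refine Set.mem_insert_of_mem _ ⟨hz1, ?_⟩
        intro h
        exact hxB (by rw [← (show z = x from h)]; exact hz2)
      have h1 : Relation.ReflTransGen (fun X Y : Flag α => FlagAdj X Y ∧ (A : Set α) ∩ B ⊆ Y) C B := by
        apply ih'
        · apply hbig
          · exact fun z hz => ⟨hsub hz, hz.2⟩
          · refine ⟨y, ⟨?_, hyB⟩, fun h => hyA h.1⟩
            rw [hC]; exact Set.mem_insert _ _
        · exact fun z hz => ⟨hsub hz, hz.2⟩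
      exact Relation.ReflTransGen.head ⟨hadj, hsub⟩ h1
    · -- use the connectivity of the section
      have hFG : F < G := hFx.trans hxG
      have hpath := hs F G hFG (by omega) x ⟨hFx, hxG⟩ y ⟨hFy, hyG⟩
      have claim : ∀ z, Relation.ReflTransGen
          (fun a b => b ∈ Set.Ioo F G ∧ (a ≤ b ∨ b ≤ a)) x z → z ∈ Set.Ioo F G ∧
          ∃ C : Flag α, z ∈ C ∧ (A : Set α) ∩ B ⊆ C ∧
          Relation.ReflTransGen (fun X Y : Flag α => FlagAdj X Y ∧ (A : Set α) ∩ B ⊆ Y) A C := by
        intro z hz
        induction hz with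
        | refl => exact ⟨⟨hFx, hxG⟩, A, hxA, Set.inter_subset_left, Relation.ReflTransGen.refl⟩
        | tail _ hbc ih2 =>
          rename_i b c _
          obtain ⟨hb, C, hbC, hsubC, hpC⟩ := ih2
          obtain ⟨hc, hcomp⟩ := hbc
          refine ⟨hc, ?_⟩
          have hchain : IsChain (· ≤ ·) (insert c (insert b ((A : Set α) ∩ B))) := by
            apply IsChain.insert
            · apply IsChain.insert
              · exact A.chain_le.mono Set.inter_subset_left
              · intro w hw _
                rcases hcommon w hw with h | h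
                · exact Or.inr (h.trans hb.1.le)
                · exact Or.inl (hb.2.le.trans h)
            · intro w hw _
              rcases hw with h | h
              · subst h
                exact hcomp.symm
              · rcases hcommon w h with h | h
                · exact Or.inr (h.trans hc.1.le)
                · exact Or.inl (hc.2.le.trans h)
          obtain ⟨D, hD⟩ := hchain.exists_subset_flag
          have hcD : c ∈ D := hD (Set.mem_insert _ _)
          have hbD : b ∈ D := hD (Set.mem_insert_of_mem _ (Set.mem_insert _ _))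
          have hsubD : (A : Set α) ∩ B ⊆ D := fun w hw =>
            hD (Set.mem_insert_of_mem _ (Set.mem_insert_of_mem _ hw))
          refine ⟨D, hcD, hsubD, hpC.trans ?_⟩
          apply ih'
          · apply hbig
            · exact fun w hw => ⟨hsubC hw, hsubD hw⟩
            · refine ⟨b, ⟨hbC, hbD⟩, fun h => ?_⟩
              rcases hcommon b h with h' | h'
              · exact absurd (hb.1.trans_le h') (lt_irrefl _)
              · exact absurd (hb.2.trans_le h') (lt_irrefl _)
          · exact fun w hw => ⟨hsubC hw, hsubD hw⟩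
      obtain ⟨_, C, hyC, hsubC, hpC⟩ := claim y hpath
      refine hpC.trans ?_
      apply ih'
      · apply hbig
        · exact fun w hw => ⟨hsubC hw, hw.2⟩
        · exact ⟨y, ⟨hyC, hyB⟩, fun h => hyA h.1⟩
      · exact fun w hw => ⟨hsubC hw, hw.2⟩
  intro A B
  exact key _ A B rfl

/-- a finite graded bounded poset: every flag meets every rank -/
theorem flag_ranks_of_graded [Finite α] (hm : StrictMono rk) (h0 : rk (⊥ : α) = 0)
    (h1 : rk (⊤ : α) = n + 1)
    (hg : ∀ F G : α, F < G → rk F + 2 ≤ rk G → ∃ H, F < H ∧ H < G) :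
    ∀ A : Flag α, rk '' (A : Set α) = Set.Iic (n + 1) := by
  intro A
  apply Set.Subset.antisymm
  · rintro _ ⟨x, _, rfl⟩
    rw [Set.mem_Iic, ← h1]
    exact hm.monotone le_top
  · intro i hi
    by_contra hcon
    have hne : ∀ x ∈ A, rk x ≠ i := fun x hx h => hcon ⟨x, hx, h⟩
    have hfin : (A : Set α).Finite := Set.toFinite _
    -- the largest element of rank below i
    obtain ⟨F, ⟨hFA, hFi⟩, hFmax⟩ := Set.exists_max_image {x | x ∈ A ∧ rk x < i} rk
      (Set.toFinite _) ⟨⊥, A.bot_mem, by
        have := hne ⊥ A.bot_mem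
        omega⟩
    obtain ⟨G, ⟨hGA, hGi⟩, hGmin⟩ := Set.exists_min_image {x | x ∈ A ∧ i < rk x} rk
      (Set.toFinite _) ⟨⊤, A.top_mem, by
        have := hne ⊤ A.top_mem
        have h2 : i ≤ n + 1 := hi
        omega⟩
    have hFG : F < G := flag_lt hm A hFA hGA (by omega)
    obtain ⟨H, hH1, hH2⟩ := hg F G hFG (by omega)
    have hHA : H ∈ A := by
      have hc : IsChain (· ≤ ·) (insert H (A : Set α)) := by
        apply A.chain_le.insert
        intro b hb _
        rcases Nat.lt_or_ge (rk b) i with h | h
        · exact Or.inr ((flag_le hm A hb hFA (hFmax b ⟨hb, h⟩)).trans hH1.le)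
        · have : i < rk b := lt_of_le_of_ne h (Ne.symm (hne b hb))
          exact Or.inl (hH2.le.trans (flag_le hm A hGA hb (hGmin b ⟨hb, this⟩)))
      have := A.max_chain' hc (Set.subset_insert _ _)
      rw [show (H ∈ A) = (H ∈ (A : Set α)) from rfl]
      have h2 : (A : Set α) = insert H (A : Set α) := this
      rw [h2]; exact Set.mem_insert _ _
    have hr1 := hm hH1
    have hr2 := hm hH2
    rcases lt_or_gt_of_ne (hne H hHA) with h | h
    · have := hFmax H ⟨hHA, h⟩; omega
    · have := hGmin H ⟨hHA, h⟩; omega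

end ranked

end Pool.Agent.Y361.Ranked
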